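import Pool.Agent.R388.TP.DescentMain

/-!
# Descent of Q1 along algebraic extensions of the base field

The setting and the notions `Tilting`, `BaseField`, `IsConeOver`, `DimGE`, `DimLEOver`, `Approximable` are
those of `AllPerfectoidFields` (starting point): `K` is a perfectoid field of characteristic `0`,
`E = K♭` its tilt, `C` the completion of an algebraic closure of `K`, and `F = C♭`. Closed subsets of
projective space are given by their cones, and `Approximable T K E X d` is Q1 over `K` for a closed subset
`X` of dimension `d` defined over `K`: for all homogeneous polynomials `P_k` over `K` which vanish on `X` and
all `ε > 0` there is a closed subset `Y` of dimension `d` defined over `E = K♭` with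
`|P_k(y♯)| ≤ ε ‖y‖ ^ (deg P_k)` for all `k` and all points `y` of `Y`.

Let `K'` be a finite extension of `K` in `C`. It is again perfectoid, and its tilt `E' = K'♭` is a finite
extension of `E` of the same degree. `GaloisLift T K E E'`: every `E`-homomorphism from `E'` to `F` is the
restriction of an isometric automorphism of `F` which corresponds under `♯` to an automorphism of `C` over
`K`. This is well known: the homomorphism extends to an automorphism of the algebraic closure of `E` in
`F`, which is isometric and extends to the completion `F`, and the tilting equivalence gives the
automorphism of `C`. (The theorem holds for all algebraic extensions `E'` of `E` with these properties.)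

`IsToricUnion K' X d`: `X` has dimension at most `d` and is the union of finitely many (at least one)
`f_i(Z_i ∩ V(h_i))`, where `Z_i` is a projective toric variety (not necessarily normal) of dimension at
least `d + c_i`, `h_i` consists of `c_i` forms over `K'`, and `f_i` is given by forms over `K'` of the same
positive degree without common zeros on `Z_i ∩ V(h_i)`.

Theorem. Let `X` be a closed subset of `ℙ^n` defined over `K`, of dimension at most `d`. If Q1 holds for `X`
over `K'` (with approximating varieties over `K'♭`), in particular if `X` is over `K'` a finite union
of images of complete intersections in toric varieties, then the dimension of `X` is `d` and Q1 holds for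
`X` over `K`, that is, with approximating varieties defined over `K♭`.

So Q1 holds, for example, for the forms (twists) over `K` of the varieties for which it is known: for
curves of genus `0` without rational points and for Severi-Brauer varieties in all their projective
embeddings over `K`, for unions of conjugate rational curves, linear spaces and so on.

Proof. Let `g_l` be equations of `X` over `K`, and let `Y'` be a closed subset over `E'`, with ideal `I'`,
which approximates `X` for the `P_k` and the `g_l`. Let `Y` be the zero set of `I' ∩ E[x_0, ..., x_n]`. If `y`
is a point of `Y`, the homomorphism `E[x] → F` given by `y` extends to `E'[x] / I'`, because this is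
integral over `E[x]` (`exists_emb`). It gives an `E`-homomorphism from `E'` to `F`, which extends to
automorphisms of `F` and of `C` over `K`; thus `y` is the conjugate of a point of `Y'`. The tubes are
invariant under the automorphisms of `C` over `K`, as the `P_k` are defined over `K`. So `Y` lies in the
tubes. The dimension of `Y` is at least `d` because `Y` contains `Y'`, and it is at most `d`: for the
`d + 1` forms over `K` without common zeros on `X` there are approximating forms over `E`, and by the
Nullstellensatz over `C` they have no common zeros on `Y`, if the tubes are small.
-/

set_option autoImplicit false

namespace Pool.Agent.Results.MP_db3ab1_ag.DescentOfBaseField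

open MvPolynomial Pool.Agent.Y129.TA Pool.Agent.Y129.TB Pool.Agent.R388.TP

/-- Q1 over an algebraic extension `K'` of `K` (with tilt `E'` algebraic over `E`) implies Q1 over `K`;
in particular Q1 over `K` holds for the closed subsets defined over `K` which are over `K'` finite unions
of images of complete intersections in toric varieties. -/
theorem result {p : ℕ} [Fact p.Prime] {C F K E K' E' : Type} [Field C] [Field F] [CharP F p]
    [Field K] [Field E] [Field K'] [Field E'] [Algebra K C] [Algebra E F] [Algebra K' C]
    [Algebra E' F] [Algebra K K'] [Algebra E E'] [IsScalarTower K K' C] [IsScalarTower E E' F]
    [IsAlgClosed C] [IsAlgClosed F] [Algebra.IsAlgebraic E E'] (T : Tilting p C F)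
    (B : BaseField T K E) (B' : BaseField T K' E') (hG : GaloisLift T.toTiltPair K E E')
    {n d : ℕ} {X : Set (Fin (n + 1) → C)} (hX : IsConeOver K X) (hXd : DimLEOver K X d)
    (hX' : IsToricUnion K' X d ∨ Approximable T.toTiltPair K' E' X d) :
    DimGE X d ∧ Approximable T.toTiltPair K E X d :=
  descent_main T B B' hG hX hXd hX'

end Pool.Agent.Results.MP_db3ab1_ag.DescentOfBaseField
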