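import Pool.Agent.R388.TP.Kummer

/-!
# Q1 for Kummer coverings

The setting and the notions `Tilting`, `BaseField`, `IsConeOver`, `DimGE`, `DimLEOver`, `Approximable` are
those of `AllPerfectoidFields` (starting point): `K` is a perfectoid field of characteristic `0`,
`E = K♭` its tilt, `C` the completion of an algebraic closure of `K`, and `F = C♭`. Closed subsets of
projective space are given by their cones, and `Approximable T K E X d` is Q1 for a closed subset `X` of
dimension `d` defined over `K`: for all homogeneous polynomials `P_k` over `K` which vanish on `X` and all
`ε > 0` there is a closed subset `Y` of dimension `d` defined over `E = K♭` with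
`|P_k(y♯)| ≤ ε ‖y‖ ^ (deg P_k)` for all `k` and all points `y` of `Y`.

For `r > 0` let `powPreimage r X` be the preimage of `X` under the finite map
`(x_0 : ... : x_n) ↦ (x_0 ^ r : ... : x_n ^ r)` from `ℙ^n` to itself, that is, the Kummer covering of `X`
which is obtained by adjoining the `r`-th roots of the quotients of the coordinates.

`IsToricUnion K X d`: `X` has dimension at most `d` and is the union of finitely many (at least one)
`f_i(Z_i ∩ V(h_i))`, where `Z_i` is a projective toric variety (not necessarily normal) of dimension at
least `d + c_i`, `h_i` consists of `c_i` forms over `K`, and `f_i` is given by forms over `K` of the same
positive degree without common zeros on `Z_i ∩ V(h_i)`. Q1 holds for these `X`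
(`ToricSectionsAndStability`).

Theorem. Let `X` be a closed subset of `ℙ^n` defined over `K` which is a finite union of images of complete
intersections in toric varieties, or for which Q1 holds, and let `r > 0`. Then the Kummer covering
`powPreimage r X` of `X` is closed, defined over `K`, its dimension is at least `d` (and so it is `d` if
the dimension of `X` is `d`), and Q1 holds for it.

Example (not part of the formal statement): let `X` be a smooth rational curve of degree `δ` in `ℙ^n` given
by a parametrisation over `K`, which meets the coordinate hyperplanes transversally in different points.
Then Q1 holds for the covering `X'` of `X`, which is a smooth curve with Galois group `(ℤ/r)^n`, ramified of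
order `r` over `(n + 1) δ` points; in general it is neither a complete intersection nor the image of
a known one. Together with `ToricSectionsAndStability` this gives Q1 for all linear projections and
re-embeddings of these curves, and so on.

Proof. Let `Y` be an approximation of `X`, and let `Y'` be the preimage of `Y` under the same map over
`F`. As `♯` is multiplicative, the points `t♯` for `t` in `Y'` satisfy the equations `g_l(x ^ r)` of the
covering up to `δ`, hence by the Nullstellensatz over `C` they are in the given tube
(`approximable_pow`). The dimension of `Y'` is at least `d` (`dimGE_pow`): the dimension of `Y` gives a
prime ideal `P` containing the equations of `Y`, whose quotient `R` contains `d + 1` algebraically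
independent elements (`exists_algInd`, by a chain of prime ideals and Noether normalisation). Let `L` be
an algebraic closure of the field of fractions of `R`, and let `s_i` be an `r`-th root of the coordinate
`x_i` in `L`. If `d` forms in the variables `t_i` had no common zero on `Y'`, then the `s_i` would be
integral over the ring generated by the values of these forms (`integral_of_no_zero`), and this is
impossible as the ring of the `s_i` contains `d + 1` algebraically independent elements. The dimension
is at most `d`, as the preimages of `d + 1` forms without common zeros on `Y` have no common zeros on
`Y'`.
-/

set_option autoImplicit false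

namespace Pool.Agent.Results.MP_db3ab1_ag.KummerCoverings

open MvPolynomial Pool.Agent.Y129.TA Pool.Agent.Y129.TB Pool.Agent.R388.TP

/-- Q1 holds for the Kummer covering `{(x_i) : (x_i ^ r) ∈ X}` if `X` is a finite union of images of
complete intersections in toric varieties or if Q1 holds for `X`. -/
theorem result {p : ℕ} [Fact p.Prime] {C F K E : Type} [Field C] [Field F] [CharP F p] [Field K]
    [Field E] [Algebra K C] [Algebra E F] [IsAlgClosed C] [IsAlgClosed F] (T : Tilting p C F)
    (B : BaseField T K E) {n d r : ℕ} (hr : 0 < r) {X : Set (Fin (n + 1) → C)}
    (hX : IsToricUnion K X d ∨ IsConeOver K X ∧ Approximable T.toTiltPair K E X d) :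
    IsConeOver K (powPreimage r X) ∧ DimGE (powPreimage r X) d ∧
      Approximable T.toTiltPair K E (powPreimage r X) d :=
  kummer_main T B hr hX

end Pool.Agent.Results.MP_db3ab1_ag.KummerCoverings
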