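import Pool.Agent.R388.TP.ProductMain

/-!
# Q1 for products

The setting and the notions `Tilting`, `BaseField`, `IsConeOver`, `DimGE`, `DimLEOver`, `Approximable` are
those of `AllPerfectoidFields` (starting point): `K` is a perfectoid field of characteristic `0`,
`E = K♭` its tilt, `C` the completion of an algebraic closure of `K`, and `F = C♭`. Closed subsets of
projective space are given by their cones, and `Approximable T K E X d` is Q1 for a closed subset `X` of
dimension `d` defined over `K`: for all homogeneous polynomials `P_k` over `K` which vanish on `X` and all
`ε > 0` there is a closed subset `Y` of dimension `d` defined over `E = K♭` with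
`|P_k(y♯)| ≤ ε ‖y‖ ^ (deg P_k)` for all `k` and all points `y` of `Y`.

`segre X₁ X₂` is the cone over the product `X₁ × X₂` in the Segre embedding: the set of the vectors
`(y_i z_j)`, `y` in `X₁`, `z` in `X₂`.

`IsToricUnion K X d`: `X` has dimension at most `d` and is the union of finitely many (at least one)
`f_i(Z_i ∩ V(h_i))`, where `Z_i` is a projective toric variety (not necessarily normal) of dimension at
least `d + c_i`, `h_i` consists of `c_i` forms over `K`, and `f_i` is given by forms over `K` of the same
positive degree without common zeros on `Z_i ∩ V(h_i)`. Q1 holds for these `X`
(`ToricSectionsAndStability`).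

Theorem. Let `X₁` and `X₂` be closed subsets of projective spaces defined over `K` such that each of them
is a finite union of images of complete intersections in toric varieties, or Q1 holds for it. Then
`X₁ × X₂` is closed and defined over `K`, its dimension is at least `d₁ + d₂` (and so equal to `d₁ + d₂`
if `d_i` is the dimension of `X_i`), and Q1 holds for `X₁ × X₂` in the Segre embedding.

In particular Q1 holds for all products of projective complete intersections, and of all varieties for
which Q1 is known, over every perfectoid field; and with the stability theorem of
`ToricSectionsAndStability` it holds for complete intersections in such products, for their images, and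
so on.

Proof. Let `Y₁` and `Y₂` be approximations of `X₁` and `X₂`. As `♯` is multiplicative, the product
`Y₁ × Y₂` is mapped to the product of small tubes around `X₁` and `X₂`, and by the Nullstellensatz over `C`
for the equations of `X₁` and `X₂` in two groups of variables this is contained in the given tube
(`approximable_segre`). The product is defined by forms over `E` (`segre_eq`). Its dimension is at most
`d₁ + d₂`: if `u_i` and `v_j` are `d₁ + 1` forms and `d₂ + 1` forms of the same degree without common
zeros on `Y₁` and `Y₂`, consider the `d₁ + d₂ + 1` forms `∑_{i + j = k} u_i v_j`, which are the
coefficients of the product of two polynomials in one variable (`dimLE_segre`). It is at least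
`d₁ + d₂` (`dimGE_segre`): the dimension of `Y_i` gives a prime ideal containing the equations of `Y_i`
whose quotient `R_i` contains `d_i + 1` algebraically independent elements (a chain of prime ideals and
Noether normalisation, `exists_algInd`); there is a prime ideal of `R₁ ⊗ R₂` such that the
`d₁ + d₂ + 2` elements remain algebraically independent in the quotient `R` (`exists_domain`); if
`d₁ + d₂` forms had no common zero on `Y₁ × Y₂`, then all products of coordinates `x_i z_j` would be
integral over the ring generated by these forms, and `R` would be algebraic over the ring generated by
these forms and one coordinate, which contradicts `d₁ + d₂ + 1 < d₁ + d₂ + 2`.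
-/

set_option autoImplicit false

namespace Pool.Agent.Results.MP_db3ab1_ag.Products

open MvPolynomial Pool.Agent.Y129.TA Pool.Agent.Y129.TB Pool.Agent.R388.TP

/-- Q1 holds for the product of two closed subsets which are finite unions of images of complete
intersections in toric varieties or for which Q1 holds. -/
theorem result {p : ℕ} [Fact p.Prime] {C F K E : Type} [Field C] [Field F] [CharP F p] [Field K]
    [Field E] [Algebra K C] [Algebra E F] [IsAlgClosed C] [IsAlgClosed F] (T : Tilting p C F)
    (B : BaseField T K E) {n₁ n₂ d₁ d₂ : ℕ} {X₁ : Set (Fin (n₁ + 1) → C)}
    {X₂ : Set (Fin (n₂ + 1) → C)}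
    (h₁ : IsToricUnion K X₁ d₁ ∨ IsConeOver K X₁ ∧ Approximable T.toTiltPair K E X₁ d₁)
    (h₂ : IsToricUnion K X₂ d₂ ∨ IsConeOver K X₂ ∧ Approximable T.toTiltPair K E X₂ d₂) :
    IsConeOver K (segre X₁ X₂) ∧ DimGE (segre X₁ X₂) (d₁ + d₂) ∧
      Approximable T.toTiltPair K E (segre X₁ X₂) (d₁ + d₂) :=
  product_main T B h₁ h₂

end Pool.Agent.Results.MP_db3ab1_ag.Products
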