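import Pool.Agent.R388.TP.Main

/-!
# Approximation for images of complete intersections in toric varieties, and stability

The setting is that of `AllPerfectoidFields` (starting point): `K` is a perfectoid field of characteristic
`0` and residue characteristic `p`, `E = K♭` its tilt, `C` the completion of an algebraic closure of
`K`, and `F = C♭`, which contains `E`. `Tilting p C F` consists of the absolute values, of the map
`x ↦ x♯` from `F` to `C` and of Fontaine's map `θ` from `W(O_F)` onto `O_C`; `BaseField T K E` says that
`E` is perfect, contains an element of absolute value `|p|`, and that `θ` maps `W(O_E)` onto `O_K`.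
These are well-known facts for every perfectoid field `K`.

A closed subset of projective space over `K` is given by the set of the points over `C` of its cone
(`IsConeOver K`). `DimGE Y d`: any `d` forms have a common zero on `Y`, i.e. the dimension of `Y` is at
least `d`. `DimLEOver K Y d`: some `d + 1` forms over `K` have no common zero on `Y`, i.e. the dimension is
at most `d`. `Approximable T K E X d` is the statement of Q1 for `X`, where `d` is the dimension of `X`: for
all homogeneous polynomials `P_k` over `K` which vanish on `X` and all `ε > 0` there is a closed `Y` of
dimension `d` in projective space over `E = K♭` with `|P_k(y♯)| ≤ ε ‖y‖ ^ (deg P_k)` for all points `y` of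
`Y` over `F` and all `k`. (If the `P_k` generate the ideal of `X`, these tubes are a basis of the
neighbourhoods of `X` in the adic space.)

`IsToric Z r`: `Z` is the cone over the (not necessarily normal) projective toric variety of `m + 1`
monomials `t ^ A_0, ..., t ^ A_m` of the same degree, i.e. the set of the points which satisfy all relations
`x ^ u = x ^ v`, `∑ u_i A_i = ∑ v_i A_i`, and `r + 1` of the exponents `A_i` are linearly independent, that
is, the dimension of `Z` is at least `r`.

Theorem. Let `N > 0`, and let `X` be the union of the `f_i(Z_i ∩ V(h_i))`, `i = 1, ..., N`, where `h_i`
consists of `c_i` forms over `K`, `f_i` is given by `n + 1` forms over `K` of the same degree `e_i > 0`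
without common zeros on `Z_i ∩ V(h_i)`, and for every `i`

* `Z_i` is a toric variety of dimension at least `d + c_i`, or
* `Z_i` is a closed subset defined over `K` for which Q1 holds, of dimension `d + c_i`.

Suppose that the dimension of `X` is at most `d`. Then `X` is closed, defined over `K`, of dimension
`d`, and Q1 holds for `X`.

So Q1 holds for all complete intersections of forms in all projective toric varieties, for all their
images under maps given by forms, and for all finite unions of such images of the same dimension, over
every perfectoid field. And the class of the `X` for which Q1 holds is stable under the passage to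
complete intersections in `X`, to images under finite maps given by forms (in particular Q1 for `X`
implies Q1 for all linear projections of `X` and for all embeddings of `X` given by forms of the same
degree), and to finite unions.

Proof. Let `g_l` be equations of `Z_i` over `K` (`exists_gens`). For every `ε` there are forms `G_l` over
`E` with zero set of dimension at least `d + c_i` such that all `g_l` are at most `ε` at `t♯` for the zeros
`t` of the `G_l` in the unit ball (`Small`). If Q1 holds for `Z_i` this is clear. If `Z_i` is toric let the
`G_l` be the equations of the same toric variety over `E`: as `♯` is multiplicative, `g_l(t♯) = 0`. The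
dimension of the toric variety over the field `F` of characteristic `p` is again at least
`d + c_i` (`dimGE_toric`): otherwise the ring generated by the monomials would be integral over the ring
generated by `d + c_i` elements (`integral_of_no_zero`), but it contains `d + c_i + 1` algebraically
independent monomials. Now consider the equations `g_l(z)`, `h_j(z)`, `y_k ^ e - f_k(z)`, replace the `g_l` by
the `G_l` and the other ones by approximating forms over `E`, and let `Y` be the image of the set of
their common zeros under `(z, y) ↦ (y_k ^ e)` (`core`). By the Nullstellensatz over `C` there is no common
zero with `y = 0`, hence `Y` is closed and defined over `E`, and it lies in the tube. Its dimension is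
at least `d`, because the dimension of the set of the `(z, y)` where `z` is in `V(G)` and `y` arbitrary
is the dimension of `V(G)` plus `n + 1` (`dimGE_sum`; this uses Krull's height theorem for polynomial
rings over the ring of `V(G)`). It is at most `d` because of the forms over `E` which approximate the
`d + 1` forms without common zeros on `X`; these are the same for all `i`, so that the union of the `Y`
for `i = 1, ..., N` has dimension `d`.
-/

set_option autoImplicit false

namespace Pool.Agent.Results.MP_db3ab1_ag.ToricSectionsAndStability

open MvPolynomial Pool.Agent.Y129.TA Pool.Agent.Y129.TB Pool.Agent.R388.TP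

/-- Q1 holds for the finite unions of images of complete intersections in closed subsets `Z_i` which
are toric varieties or for which Q1 holds. -/
theorem result {p : ℕ} [Fact p.Prime] {C F K E : Type} [Field C] [Field F] [CharP F p] [Field K]
    [Field E] [Algebra K C] [Algebra E F] [IsAlgClosed C] [IsAlgClosed F] (T : Tilting p C F)
    (B : BaseField T K E) {N n d : ℕ} (hN : 0 < N) {c m e : Fin N → ℕ}
    (Z : ∀ i, Set (Fin (m i + 1) → C))
    (hZ : ∀ i, IsToric (Z i) (d + c i) ∨
      IsConeOver K (Z i) ∧ Approximable T.toTiltPair K E (Z i) (d + c i))
    (h : ∀ i, Fin (c i) → MvPolynomial (Fin (m i + 1)) K) (hh : ∀ i j, IsForm (h i j))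
    (f : ∀ i, Fin (n + 1) → MvPolynomial (Fin (m i + 1)) K) (he : ∀ i, 0 < e i)
    (hf : ∀ i j, (f i j).IsHomogeneous (e i))
    (h0 : ∀ i, ∀ z ∈ Z i, (∀ j, aeval z (h i j) = 0) → (∀ j, aeval z (f i j) = 0) → z = 0)
    (hX : DimLEOver K (⋃ i, sectionImage (Z i) (h i) (f i)) d) :
    IsConeOver K (⋃ i, sectionImage (Z i) (h i) (f i)) ∧
      DimGE (⋃ i, sectionImage (Z i) (h i) (f i)) d ∧
      Approximable T.toTiltPair K E (⋃ i, sectionImage (Z i) (h i) (f i)) d :=
  main T B hN Z hZ h hh f he hf h0 hX

end Pool.Agent.Results.MP_db3ab1_ag.ToricSectionsAndStability
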